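import Pool.Agent.H605.Web.Impl4
import Pool.Agent.H605.Web.Error
import Pool.Agent.H605.Web.QSets

/-!
# Covering by one residue class per prime, multiples in short intervals, discrete Kakeya

Q1 of MP_bb5cc8_nt, its restriction to exponents `α` near `1`, the question of Erdos on distinct
multiples of `1, …, n` in short intervals (Q1 of MP_98a628_nt) and the one-dimensional discrete
Kakeya statement of Bourgain (progressions of length `N ^ ε`) are all equivalent.  More generally,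
for every `0 < θ ≤ 1`, the exponent `θ` in the limit `α → 1` of the covering problem, the exponent
`1 - α (1 - θ)` for all `α`, the analogous bound for arbitrary sets of moduli (primes or not, and of
any size), the exponent `θ` for the multiples of the elements of sets in short intervals and the
exponent `θ` in the discrete Kakeya statements are equivalent.
-/

set_option autoImplicit false

open Filter N047c7463 Asymptotics

namespace Pool.Agent.Results.MP_bb5cc8_nt.ErdosKakeyaEquivalence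

/-- `p` is a prime with `N^α ≤ p < 2 N^α`. -/
def InRange (α : ℝ) (N p : ℕ) : Prop :=
  p.Prime ∧ (N : ℝ) ^ α ≤ (p : ℝ) ∧ (p : ℝ) < 2 * (N : ℝ) ^ α

/-- The number `S_a(N)` of integers `1 ≤ n ≤ N` lying in the chosen class `a p` modulo `p` for at
least one prime `p` with `N^α ≤ p < 2 N^α`. -/
noncomputable def covered (α : ℝ) (N : ℕ) (a : (p : ℕ) → ZMod p) : ℕ :=
  Set.ncard {n : ℕ | 1 ≤ n ∧ n ≤ N ∧ ∃ p : ℕ, InRange α N p ∧ (n : ZMod p) = a p}

/-- The uniform lower bound `S_a(N) ≥ N^{c - o(1)}` for the exponent `α`: for every `ε > 0`, for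
all large `N` and every choice `a` of residue classes, `S_a(N) ≥ N^(c - ε)`. -/
def LowerBound (α c : ℝ) : Prop :=
  ∀ ε : ℝ, 0 < ε → ∃ N₀ : ℕ, ∀ N : ℕ, N₀ ≤ N → ∀ a : (p : ℕ) → ZMod p,
    (N : ℝ) ^ (c - ε) ≤ (covered α N a : ℝ)

/-- `E` contains, for the difference `d`, a progression `a, a + d, …, a + j d`, `j ≤ K`. -/
def HasAP (E : Finset ℤ) (K : ℝ) (d : ℕ) : Prop :=
  ∃ a : ℤ, ∀ j : ℕ, (j : ℝ) ≤ K → a + j * d ∈ E

/-- The one-dimensional discrete Kakeya statement with exponent `θ`: a finite set of integers which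
contains a progression of length at least `N^ε` with every common difference `1, …, N` has at least
`N^(θ-ε)` elements, for `N ≥ N₀(ε)`. -/
def DiscreteKakeya (θ : ℝ) : Prop :=
  ∀ ε : ℝ, 0 < ε → ∃ N₀ : ℕ, ∀ N : ℕ, N₀ ≤ N → ∀ E : Finset ℤ,
    (∀ d : ℕ, 1 ≤ d → d ≤ N → HasAP E ((N : ℝ) ^ ε) d) → (N : ℝ) ^ (θ - ε) ≤ (E.card : ℝ)

/-- The same for arbitrary sets `D` of common differences: `|D| ≤ N^(1-θ+ε) |E|`. -/
def DiscreteKakeyaSets (θ : ℝ) : Prop :=
  ∀ ε : ℝ, 0 < ε → ∃ N₀ : ℕ, ∀ N : ℕ, N₀ ≤ N → ∀ D : Finset ℕ, (∀ d ∈ D, 1 ≤ d ∧ d ≤ N) →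
    ∀ E : Finset ℤ, (∀ d ∈ D, HasAP E ((N : ℝ) ^ ε) d) →
      (D.card : ℝ) ≤ (N : ℝ) ^ (1 - θ + ε) * (E.card : ℝ)

/-- Multiples of the elements of a set `D` of integers `1 ≤ d ≤ N` in short intervals, with exponent
`θ`: every interval of length `L ≥ N^(1+ε)` contains at least `N^(-(1-θ)-ε) |D|` integers with a
divisor in `D`, for `N ≥ N₀(ε)`. -/
def MultiplesOfSets (θ : ℝ) : Prop :=
  ∀ ε : ℝ, 0 < ε → ∃ N₀ : ℕ, ∀ N : ℕ, N₀ ≤ N → ∀ D : Finset ℕ, (∀ d ∈ D, 1 ≤ d ∧ d ≤ N) →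
    ∀ m L : ℕ, (N : ℝ) ^ (1 + ε) ≤ (L : ℝ) →
      (D.card : ℝ) ≤ (N : ℝ) ^ (1 - θ + ε) *
        (Set.ncard {y : ℕ | m < y ∧ y ≤ m + L ∧ ∃ d ∈ D, d ∣ y} : ℝ)

/-- Covering by one residue class for each element of an arbitrary set `D` of moduli `d < 2 N^α`,
primes or not: for all `0 < α < 1` and `ε > 0`, at least `|D| N^(1-α-α(1-θ)-ε)` of the integers
`1, …, N` lie in the class of `a d` modulo `d` for some `d ∈ D`, for `N ≥ N₀(α, ε)`. -/
def CoveringBySets (θ : ℝ) : Prop :=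
  ∀ α : ℝ, 0 < α → α < 1 → ∀ ε : ℝ, 0 < ε → ∃ N₀ : ℕ, ∀ N : ℕ, N₀ ≤ N → ∀ D : Finset ℕ,
    (∀ d ∈ D, 1 ≤ d ∧ (d : ℝ) < 2 * (N : ℝ) ^ α) → ∀ a : ℕ → ℤ,
      (D.card : ℝ) * (N : ℝ) ^ (1 - α - α * (1 - θ) - ε) ≤
        (Set.ncard {n : ℕ | 1 ≤ n ∧ n ≤ N ∧ ∃ d ∈ D, (d : ℤ) ∣ n - a d} : ℝ)

/-- Q1 of MP_98a628_nt (Erdos), as in its frozen statement: for some `error n → 0` and all large
`n`, every open interval of length `n ^ (1 + error n)` contains distinct multiples of
`1, …, n`. -/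
def ErdosMultiples : Prop :=
  ∃ error : ℕ → ℝ, error =o[atTop] (fun _ ↦ (1 : ℝ)) ∧ ∀ᶠ n in atTop, ∀ m, ∃ L,
    HasDivisibleDistinctTuple n m L ∧ (L : ℝ) ≤ Real.rpow n (1 + error n)

/-- (a) The following are equivalent: Q1 (the bound `N^{1-o(1)}` for all `1/2 < α < 1`); the same
for all `0 < α < 1`; lower exponents tending to `1` for a sequence of `α` tending to `1`; the bound
`|D| N^(1-α-o(1))` for all sets `D` of moduli `d < 2 N^α`; the question of Erdos (Q1 of
MP_98a628_nt); `|D| n^(-o(1))` multiples of the elements of a set `D` of integers `1 ≤ d ≤ n` in every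
interval of length `n^(1+ε)`; the two discrete Kakeya statements.

(b) For every `0 < θ ≤ 1` the following are equivalent: lower exponents tending to `θ` for a
sequence of `α` tending to `1`; the lower exponent `1 - α (1 - θ)` for all `0 < α < 1`; the same for
arbitrary sets of moduli; the exponent `θ` for the multiples of sets in short intervals; the exponent
`θ` in the two discrete Kakeya statements.  They imply that every interval of length `n^(2-θ+o(1))`
contains distinct multiples of `1, …, n`. -/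
theorem result :
    List.TFAE [
      ∀ α : ℝ, 1 / 2 < α → α < 1 → LowerBound α 1,
      ∀ α : ℝ, 0 < α → α < 1 → LowerBound α 1,
      ∀ ε : ℝ, 0 < ε → ∃ α : ℝ, 1 - ε < α ∧ α < 1 ∧ LowerBound α (1 - ε),
      CoveringBySets 1,
      ErdosMultiples,
      MultiplesOfSets 1,
      DiscreteKakeya 1,
      DiscreteKakeyaSets 1] ∧
    ∀ θ : ℝ, 0 < θ → θ ≤ 1 →
      List.TFAE [
        ∀ ε : ℝ, 0 < ε → ∃ α : ℝ, 1 - ε < α ∧ α < 1 ∧ LowerBound α (θ - ε),
        ∀ α : ℝ, 0 < α → α < 1 → LowerBound α (1 - α * (1 - θ)),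
        CoveringBySets θ,
        MultiplesOfSets θ,
        DiscreteKakeya θ,
        DiscreteKakeyaSets θ] ∧
      (DiscreteKakeya θ → ∀ η : ℝ, 0 < η → ∀ᶠ n : ℕ in atTop, ∀ m : ℕ, ∃ L : ℕ,
        HasDivisibleDistinctTuple n m L ∧ (L : ℝ) ≤ (n : ℝ) ^ (2 - θ + η)) := by
  refine ⟨?_, fun θ h0 h1 => ⟨?_, fun h η hη => ?_⟩⟩
  · tfae_have 2 → 1 := fun h α h1 h2 => h α (by linarith) h2
    tfae_have 1 → 3 := by
      intro h ε hε
      refine ⟨max (3 / 4) (1 - ε / 2), ?_, ?_, ?_⟩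
      · exact lt_of_lt_of_le (by linarith) (le_max_right _ _)
      · exact max_lt (by norm_num) (by linarith)
      · have h1 := h (max (3 / 4) (1 - ε / 2)) (lt_of_lt_of_le (by norm_num) (le_max_left _ _))
          (max_lt (by norm_num) (by linarith))
        intro δ hδ
        obtain ⟨N₀, hN₀⟩ := h1 (ε + δ) (by linarith)
        refine ⟨N₀, fun N hN a => ?_⟩
        have h2 := hN₀ N hN a
        have e : (1 : ℝ) - ε - δ = 1 - (ε + δ) := by ring
        rw [e]
        exact h2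
    tfae_have 3 → 7 := fun h => Pool.Agent.H605.Web.full_of_nearOne h
    tfae_have 7 → 8 := fun h => Pool.Agent.H605.Web.DKsets_of_DKfull h
    tfae_have 8 → 4 := fun h =>
      Pool.Agent.H605.Web.coverSets_of_DKsets zero_le_one le_rfl h
    tfae_have 4 → 2 := fun h α h1 h2 => by
      have h3 := Pool.Agent.H605.Web.lower_of_coverSets h h1 h2
      rw [sub_self, mul_zero, sub_zero] at h3
      exact h3
    tfae_have 8 → 6 := fun h => Pool.Agent.H605.Web.multSets_of_DKsets h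
    tfae_have 6 → 3 := fun h =>
      Pool.Agent.H605.Web.nearOneTheta_of_multSets zero_le_one le_rfl h
    tfae_have 8 → 5 := fun h => Pool.Agent.H605.Web.erdos_of_eps fun η hη => by
      have h3 := Pool.Agent.H605.Web.erdos_of_DKsets le_rfl h hη
      rw [show (2 : ℝ) - 1 + η = 1 + η by ring] at h3
      exact h3
    tfae_have 5 → 7 := fun h => Pool.Agent.H605.Web.full_of_erdos h
    tfae_finish
  · tfae_have 1 → 5 := fun h => Pool.Agent.H605.Web.DKfull_of_nearOne h0 h1 h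
    tfae_have 5 → 6 := fun h => Pool.Agent.H605.Web.DKsets_of_DKfull h
    tfae_have 6 → 3 := fun h => Pool.Agent.H605.Web.coverSets_of_DKsets h0.le h1 h
    tfae_have 3 → 2 := fun h α h2 h3 => Pool.Agent.H605.Web.lower_of_coverSets h h2 h3
    tfae_have 2 → 1 := fun h => Pool.Agent.H605.Web.nearOneTheta_of_lower h1 h
    tfae_have 6 → 4 := fun h => Pool.Agent.H605.Web.multSets_of_DKsets h
    tfae_have 4 → 1 := fun h => Pool.Agent.H605.Web.nearOneTheta_of_multSets h0.le h1 h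
    tfae_finish
  · exact Pool.Agent.H605.Web.erdos_of_DKsets h1 (Pool.Agent.H605.Web.DKsets_of_DKfull h) hη

end Pool.Agent.Results.MP_bb5cc8_nt.ErdosKakeyaEquivalence
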