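import Pool.Agent.H605.Web.Euclid

/-!
# Lower exponents for the covering problem near `α = 1` give dimensions of Kakeya sets

If `S_a(N) ≥ N^(θ - o(1))` for exponents `α` arbitrarily close to `1` (in the limit), then all
Kakeya sets in `ℝ^n` have lower Minkowski dimension at least `1 + (n - 1) θ`. In particular Q1
implies the Kakeya conjecture for the (lower) Minkowski dimension in every dimension.
-/

set_option autoImplicit false

open MeasureTheory Filter Topology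

namespace Pool.Agent.Results.MP_bb5cc8_nt.KakeyaFromCovering

/-- `p` is a prime with `N^α ≤ p < 2 N^α`. -/
def InRange (α : ℝ) (N p : ℕ) : Prop :=
  p.Prime ∧ (N : ℝ) ^ α ≤ (p : ℝ) ∧ (p : ℝ) < 2 * (N : ℝ) ^ α

/-- The number `S_a(N)` of integers `1 ≤ n ≤ N` lying in the chosen class `a p` modulo `p` for at
least one prime `p` with `N^α ≤ p < 2 N^α`. -/
noncomputable def covered (α : ℝ) (N : ℕ) (a : (p : ℕ) → ZMod p) : ℕ :=
  Set.ncard {n : ℕ | 1 ≤ n ∧ n ≤ N ∧ ∃ p : ℕ, InRange α N p ∧ (n : ZMod p) = a p}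

/-- The uniform lower bound `S_a(N) ≥ N^{c - o(1)}` for the exponent `α`: for every `ε > 0`, for
all large `N` and every choice `a` of residue classes, `S_a(N) ≥ N^(c - ε)`. -/
def LowerBound (α c : ℝ) : Prop :=
  ∀ ε : ℝ, 0 < ε → ∃ N₀ : ℕ, ∀ N : ℕ, N₀ ≤ N → ∀ a : (p : ℕ) → ZMod p,
    (N : ℝ) ^ (c - ε) ≤ (covered α N a : ℝ)

/-- `K ⊆ ℝ^n` contains a unit segment in every direction. -/
def HasSegments {n : ℕ} (K : Set (EuclideanSpace ℝ (Fin n))) : Prop :=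
  ∀ e : EuclideanSpace ℝ (Fin n), ‖e‖ = 1 → ∃ a : EuclideanSpace ℝ (Fin n),
    ∀ t ∈ Set.Icc (0 : ℝ) 1, a + t • e ∈ K

/-- The lower Minkowski dimension `n - limsup_{δ → 0+} log |N_δ K| / log δ`. -/
noncomputable def lowerMinkowski {n : ℕ} (K : Set (EuclideanSpace ℝ (Fin n))) : ℝ :=
  n - limsup (fun δ : ℝ => Real.log (volume (Metric.thickening δ K)).toReal / Real.log δ) (𝓝[>] 0)

/-- Let `0 < θ ≤ 1` and suppose that for every `ε > 0` there is `α` in `(1 - ε, 1)` with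
`S_a(N) ≥ N^(θ - ε - o(1))` for all choices `a`. Then for all `n ≥ 2` and `ε > 0` there is `κ > 0`
with `|N_δ K| ≥ κ δ^((n - 1)(1 - θ) + ε)` for all `0 < δ ≤ 1` and all sets `K ⊆ ℝ^n` with a unit
segment in every direction; every compact `K` of this kind has lower Minkowski dimension at least
`1 + (n - 1) θ`. In particular (`θ = 1`) Q1 implies `|N_δ K| ≥ κ δ^ε` for all Kakeya sets. -/
theorem result :
    (∀ θ : ℝ, 0 < θ → θ ≤ 1 →
      (∀ ε : ℝ, 0 < ε → ∃ α : ℝ, 1 - ε < α ∧ α < 1 ∧ LowerBound α (θ - ε)) →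
      ∀ n : ℕ, 2 ≤ n →
        (∀ ε : ℝ, 0 < ε → ∃ κ : ℝ, 0 < κ ∧ ∀ K : Set (EuclideanSpace ℝ (Fin n)),
          HasSegments K → ∀ δ : ℝ, 0 < δ → δ ≤ 1 →
            ENNReal.ofReal (κ * δ ^ (((n : ℝ) - 1) * (1 - θ) + ε)) ≤
              volume (Metric.thickening δ K)) ∧
        (∀ K : Set (EuclideanSpace ℝ (Fin n)), IsCompact K → HasSegments K →
          1 + ((n : ℝ) - 1) * θ ≤ lowerMinkowski K)) ∧
    ((∀ α : ℝ, 1 / 2 < α → α < 1 → LowerBound α 1) →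
      ∀ n : ℕ, 2 ≤ n → ∀ ε : ℝ, 0 < ε → ∃ κ : ℝ, 0 < κ ∧
        ∀ K : Set (EuclideanSpace ℝ (Fin n)), HasSegments K → ∀ δ : ℝ, 0 < δ → δ ≤ 1 →
          ENNReal.ofReal (κ * δ ^ ε) ≤ volume (Metric.thickening δ K)) := by
  have main : ∀ θ : ℝ, 0 < θ → θ ≤ 1 →
      (∀ ε : ℝ, 0 < ε → ∃ α : ℝ, 1 - ε < α ∧ α < 1 ∧ LowerBound α (θ - ε)) →
      ∀ n : ℕ, 2 ≤ n →
        (∀ ε : ℝ, 0 < ε → ∃ κ : ℝ, 0 < κ ∧ ∀ K : Set (EuclideanSpace ℝ (Fin n)),
          HasSegments K → ∀ δ : ℝ, 0 < δ → δ ≤ 1 →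
            ENNReal.ofReal (κ * δ ^ (((n : ℝ) - 1) * (1 - θ) + ε)) ≤
              volume (Metric.thickening δ K)) := by
    intro θ hθ0 hθ1 h n hn ε hε
    have hDK := Pool.Agent.H605.Web.DKsets_of_DKfull
      (Pool.Agent.H605.Web.DKfull_of_nearOne hθ0 hθ1 h)
    obtain ⟨d, rfl⟩ : ∃ d, n = d + 1 := ⟨n - 1, by omega⟩
    obtain ⟨κ, hκ, hv⟩ := Pool.Agent.H605.Web.kakeya_all hDK hθ1 (d := d) (by omega) hε
    refine ⟨κ, hκ, fun K hK δ hδ hδ1 => ?_⟩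
    have e : (((d + 1 : ℕ) : ℝ) - 1) * (1 - θ) + ε = (d : ℝ) * (1 - θ) + ε := by
      push_cast; ring
    rw [e]
    exact hv K hK δ hδ hδ1
  refine ⟨fun θ hθ0 hθ1 h n hn => ⟨main θ hθ0 hθ1 h n hn, fun K hKc hK => ?_⟩, ?_⟩
  · have h1 := Pool.Agent.H605.Web.dim_of_volume (s := ((n : ℝ) - 1) * (1 - θ)) K hKc
      (fun ε hε => by
        obtain ⟨κ, hκ, hv⟩ := main θ hθ0 hθ1 h n hn ε hε
        exact ⟨κ, hκ, hv K hK⟩)
    refine le_trans (le_of_eq ?_) h1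
    ring
  · intro h n hn ε hε
    obtain ⟨κ, hκ, hv⟩ := main 1 one_pos le_rfl (fun η hη => by
      refine ⟨max (3 / 4) (1 - η / 2), ?_, ?_, ?_⟩
      · exact lt_of_lt_of_le (by linarith) (le_max_right _ _)
      · exact max_lt (by norm_num) (by linarith)
      · have h1 := h (max (3 / 4) (1 - η / 2)) (lt_of_lt_of_le (by norm_num) (le_max_left _ _))
          (max_lt (by norm_num) (by linarith))
        intro ζ hζ
        obtain ⟨N₀, hN₀⟩ := h1 (η + ζ) (by linarith)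
        refine ⟨N₀, fun N hN a => ?_⟩
        have h2 := hN₀ N hN a
        have e : (1 : ℝ) - η - ζ = 1 - (η + ζ) := by ring
        rw [e]
        exact h2) n hn ε hε
    refine ⟨κ, hκ, fun K hK δ hδ hδ1 => ?_⟩
    have h2 := hv K hK δ hδ hδ1
    have e : ((n : ℝ) - 1) * (1 - 1) + ε = ε := by ring
    rw [e] at h2
    exact h2

end Pool.Agent.Results.MP_bb5cc8_nt.KakeyaFromCovering
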